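import Mathlib

set_option autoImplicit false

open scoped ENNReal

namespace Pool.Agent.Results.MP_288d1b_co.HalfPoint

/-- `‖α‖ = ∑ α(i)`. -/
noncomputable def size (α : ℤ → ℝ≥0∞) : ℝ≥0∞ := ∑' i, α i

/-- `‖α + d · α‖ = inf_{0 < p < 1} ∑_i (∑_{j + d k = i} α(j) α(k)) ^ p`
(`d = 1` gives `‖α + α‖`, `d = 2` gives `‖α + 2 · α‖`). -/
noncomputable def dil (d : ℤ) (α : ℤ → ℝ≥0∞) : ℝ≥0∞ :=
  ⨅ p ∈ Set.Ioo (0 : ℝ) 1,
    ∑' i : ℤ, (∑' jk : ℤ × ℤ, if jk.1 + d * jk.2 = i then α jk.1 * α jk.2 else 0) ^ p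

/-- half of a point mass -/
noncomputable def half : ℤ → ℝ≥0∞ := fun i => if i = 0 then 2⁻¹ else 0

theorem dil_half (d : ℤ) : dil d half = ⨅ p ∈ Set.Ioo (0 : ℝ) 1, (2⁻¹ * 2⁻¹ : ℝ≥0∞) ^ p := by
  unfold dil
  refine iInf_congr fun p => iInf_congr fun hp => ?_
  have h : ∀ i : ℤ, (∑' jk : ℤ × ℤ, if jk.1 + d * jk.2 = i then half jk.1 * half jk.2 else 0) =
      if i = 0 then 2⁻¹ * 2⁻¹ else 0 := by
    intro i
    rw [tsum_eq_single (0, 0)]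
    · simp [half, eq_comm]
    · rintro ⟨j, k⟩ h
      by_cases hj : j = 0
      · have hk : k ≠ 0 := fun hk => h (by rw [hj, hk])
        simp [half, hk]
      · simp [half, hj]
  simp only [h]
  rw [tsum_eq_single 0]
  · simp
  · intro i hi
    simp [hi, hp.1]

theorem result : ¬ ∀ α : ℤ → ℝ≥0∞, (∀ i, α i ≤ 1) → ∑' i, α i < ⊤ →
    size α * dil 2 α ≤ dil 1 α ^ 2 := by
  intro h
  have hs : size half = 2⁻¹ := by
    unfold size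
    rw [tsum_eq_single 0]
    · simp [half]
    · intro i hi
      simp [half, hi]
  have h1 := h half (fun i => by unfold half; split_ifs <;> simp) (by
    change size half < ⊤
    rw [hs]; simp)
  rw [hs, dil_half, dil_half] at h1
  set N := ⨅ p ∈ Set.Ioo (0 : ℝ) 1, (2⁻¹ * 2⁻¹ : ℝ≥0∞) ^ p with hN
  have hc : (2⁻¹ * 2⁻¹ : ℝ≥0∞) < 1 := by
    calc (2⁻¹ * 2⁻¹ : ℝ≥0∞) ≤ 2⁻¹ * 1 := by gcongr; simp
      _ < 1 := by simp
  have hc0 : (0 : ℝ≥0∞) < 2⁻¹ * 2⁻¹ := ENNReal.mul_pos (by simp) (by simp)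
  have lo : (2⁻¹ * 2⁻¹ : ℝ≥0∞) ≤ N := by
    refine le_iInf₂ fun p hp => ?_
    have := ENNReal.rpow_le_rpow_of_exponent_ge hc.le hp.2.le
    simpa using this
  have hi : N < 2⁻¹ := by
    calc N ≤ (2⁻¹ * 2⁻¹ : ℝ≥0∞) ^ (3 / 4 : ℝ) :=
          iInf₂_le_of_le (3 / 4 : ℝ) ⟨by norm_num, by norm_num⟩ le_rfl
      _ < (2⁻¹ * 2⁻¹ : ℝ≥0∞) ^ (1 / 2 : ℝ) :=
          ENNReal.rpow_lt_rpow_of_exponent_gt hc0 hc (by norm_num)
      _ = 2⁻¹ := by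
          rw [← sq, ← ENNReal.rpow_natCast, ← ENNReal.rpow_mul]
          norm_num
  have h0 : N ≠ 0 := (hc0.trans_le lo).ne'
  have ht : N ≠ ⊤ := hi.ne_top
  rw [sq] at h1
  exact absurd h1 (not_le.2 ((ENNReal.mul_lt_mul_iff_left h0 ht).2 hi))

end Pool.Agent.Results.MP_288d1b_co.HalfPoint
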